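import Pool.Agent.Helper7_Serial.Interval

/-!
# The special elements and their levels
-/

set_option autoImplicit false

namespace Helper7_Serial

namespace TropD

variable {D : Type} [DivisionRing D] (T : TropD D)

/-- If `z` is of smaller level than the unit `a` at `s` then `a + z` is a unit of the level of
`a`. -/
theorem ultra_op (a : Dˣ) (z : D) (s r : ℚ) (h : T.Op z s r) (hr : r < T.act a s) :
    ∃ c : Dˣ, (c : D) = a + z ∧ T.act c s = T.act a s := by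
  by_cases hz : z = 0
  · exact ⟨a, by rw [hz, add_zero], rfl⟩
  · exact T.ultra_eq a (Units.mk0 z hz) s ((h (Units.mk0 z hz) rfl).trans_lt hr)

/-- the conjugate `x^n u x^(-n)` -/
noncomputable def cu (n : ℤ) : Dˣ := T.x ^ n * T.u * T.x ^ (-n)

theorem cu_pos (n : ℤ) {s : ℚ} (h : (n : ℚ) < s) : T.act (T.cu n) s = (s - n) / 8 + n := by
  rw [cu, act_mul, act_mul, act_zpow, act_zpow, T.u_pos (by push_cast; linarith)]
  push_cast
  ring

theorem cu_neg (n : ℤ) {s : ℚ} (h : s < (n : ℚ)) : T.act (T.cu n) s = 8 * (s - n) + n := by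
  rw [cu, act_mul, act_mul, act_zpow, act_zpow, T.u_neg (by push_cast; linarith)]
  push_cast
  ring

theorem cu_self (n : ℤ) : T.act (T.cu n) (n : ℚ) = n := by
  have h : (n : ℚ) + ((-n : ℤ) : ℚ) = 0 := by push_cast; ring
  rw [cu, act_mul, act_mul, act_zpow T (-n), h, u_zero, act_zpow]
  ring

/-- `c = x^8 u x^(-8) + x^24 u x^(-24)` -/
noncomputable def c : D := (T.cu 8 : D) + T.cu 24

/-- `f = u + x^16 u x^(-16)` -/
noncomputable def f : D := (T.cu 0 : D) + T.cu 16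

/-- `a = x^(-2) t⁻¹ x^2` -/
noncomputable def au : Dˣ := T.x ^ (-2 : ℤ) * T.t⁻¹ * T.x ^ (2 : ℤ)

/-- `d = x^12 t x^(-12)` -/
noncomputable def du : Dˣ := T.x ^ (12 : ℤ) * T.t * T.x ^ (-12 : ℤ)

/-- `r = x^(-16)` -/
noncomputable def r : D := ((T.x ^ (-16 : ℤ) : Dˣ) : D)

theorem act_au (s : ℚ) : T.act T.au s = (s + 2) / 8 - 2 := by
  rw [au, act_mul, act_mul, act_zpow, act_zpow, act_t_inv]
  push_cast
  ring

theorem act_du (s : ℚ) : T.act T.du s = 8 * (s - 12) + 12 := by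
  rw [du, act_mul, act_mul, act_zpow, act_zpow, T.ht]
  push_cast
  ring

theorem op_cu_pos (n : ℤ) {s r : ℚ} (h : (n : ℚ) < s) (hr : (s - n) / 8 + n ≤ r) :
    T.Op (T.cu n : D) s r := T.op_unit (by rw [T.cu_pos n h]; exact hr)

theorem op_cu_neg (n : ℤ) {s r : ℚ} (h : s < (n : ℚ)) (hr : 8 * (s - n) + n ≤ r) :
    T.Op (T.cu n : D) s r := T.op_unit (by rw [T.cu_neg n h]; exact hr)

theorem op_cu_self (n : ℤ) {s r : ℚ} (h : s = n) (hr : (n : ℚ) ≤ r) :
    T.Op (T.cu n : D) s r := T.op_unit (by rw [h, T.cu_self n]; exact hr)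

theorem op_c_24 : T.Op T.c 24 24 :=
  T.op_add (T.op_cu_pos 8 (by norm_num) (by norm_num)) (T.op_cu_self 24 (by norm_num) (by norm_num))

theorem op_c_17 : T.Op T.c 17 (73 / 8) :=
  T.op_add (T.op_cu_pos 8 (by norm_num) (by norm_num)) (T.op_cu_neg 24 (by norm_num) (by norm_num))

theorem op_c_1 : T.Op T.c 1 (-48) :=
  T.op_add (T.op_cu_neg 8 (by norm_num) (by norm_num)) (T.op_cu_neg 24 (by norm_num) (by norm_num))

theorem op_c_0 : T.Op T.c 0 (-56) :=
  T.op_add (T.op_cu_neg 8 (by norm_num) (by norm_num)) (T.op_cu_neg 24 (by norm_num) (by norm_num))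

theorem op_f_24 : T.Op T.f 24 17 :=
  T.op_add (T.op_cu_pos 0 (by norm_num) (by norm_num)) (T.op_cu_pos 16 (by norm_num) (by norm_num))

theorem op_f_8 : T.Op T.f 8 1 :=
  T.op_add (T.op_cu_pos 0 (by norm_num) (by norm_num)) (T.op_cu_neg 16 (by norm_num) (by norm_num))

theorem op_f_0 : T.Op T.f 0 0 :=
  T.op_add (T.op_cu_self 0 (by norm_num) (by norm_num)) (T.op_cu_neg 16 (by norm_num) (by norm_num))

/-- `g = -c f` -/
noncomputable def g : D := -(T.c * T.f)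

theorem op_g_24 : T.Op T.g 24 (73 / 8) := T.op_neg (T.op_mul T.op_c_17 T.op_f_24)

theorem op_g_0 : T.Op T.g 0 (-56) := T.op_neg (T.op_mul T.op_c_0 T.op_f_0)

theorem op_g_8 : T.Op T.g 8 (-48) := T.op_neg (T.op_mul T.op_c_1 T.op_f_8)

theorem op_r (s q : ℚ) (h : s - 16 ≤ q) : T.Op T.r s q := by
  apply T.op_unit
  rw [act_zpow]
  push_cast
  linarith

/-- `f` is a unit fixing the level `0`. -/
theorem exists_fu : ∃ w : Dˣ, (w : D) = T.f ∧ T.act w 0 = 0 := by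
  have h0 : T.act (T.cu 0) 0 = 0 := by
    have := T.cu_self 0
    simpa using this
  obtain ⟨w, hw, hw0⟩ := T.ultra_op (T.cu 0) (T.cu 16 : D) 0 (-112)
    (T.op_cu_neg 16 (by norm_num) (by norm_num)) (by rw [h0]; norm_num)
  exact ⟨w, hw, by rw [hw0, h0]⟩

/-- `c + f` is a unit fixing the levels `0` and `24`. -/
theorem exists_w : ∃ w : Dˣ, (w : D) = T.c + T.f ∧ T.act w 0 = 0 ∧ T.act w 24 = 24 := by
  have h0 : T.act (T.cu 0) 0 = 0 := by
    have := T.cu_self 0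
    simpa using this
  have h24 : T.act (T.cu 24) 24 = 24 := by
    have := T.cu_self 24
    simpa using this
  obtain ⟨w, hw, hw0⟩ := T.ultra_op (T.cu 0) ((T.cu 16 : D) + T.c) 0 (-56)
    (T.op_add (T.op_cu_neg 16 (by norm_num) (by norm_num)) T.op_c_0) (by rw [h0]; norm_num)
  obtain ⟨w', hw', hw0'⟩ := T.ultra_op (T.cu 24) ((T.cu 8 : D) + T.f) 24 17
    (T.op_add (T.op_cu_pos 8 (by norm_num) (by norm_num)) T.op_f_24) (by rw [h24]; norm_num)
  have h1 : (w : D) = T.c + T.f := by rw [hw, f]; abel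
  have h2 : (w' : D) = T.c + T.f := by rw [hw', c]; abel
  have h3 : w = w' := Units.ext (by rw [h1, h2])
  refine ⟨w, h1, by rw [hw0, h0], ?_⟩
  rw [h3, hw0', h24]

/-- `a + d` is a unit fixing the levels `-2` and `12`. -/
theorem exists_w' : ∃ w : Dˣ, (w : D) = T.au + T.du ∧ T.act w (-2) = -2 ∧ T.act w 12 = 12 := by
  obtain ⟨w, hw, hw0⟩ := T.ultra_eq T.au T.du (-2) (by rw [act_au, act_du]; norm_num)
  obtain ⟨w', hw', hw0'⟩ := T.ultra_eq T.du T.au 12 (by rw [act_au, act_du]; norm_num)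
  have h3 : w = w' := Units.ext (by rw [hw, hw', add_comm])
  refine ⟨w, hw, by rw [hw0, act_au]; norm_num, ?_⟩
  rw [h3, hw0', act_du]
  norm_num

/-- the unit `c + f` -/
noncomputable def w : Dˣ := T.exists_w.choose

theorem w_eq : (T.w : D) = T.c + T.f := T.exists_w.choose_spec.1

theorem act_w_0 : T.act T.w 0 = 0 := T.exists_w.choose_spec.2.1

theorem act_w_24 : T.act T.w 24 = 24 := T.exists_w.choose_spec.2.2

/-- The unit `δ = a + d - g (c + f)⁻¹` fixes the levels `-2` and `12`. -/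
theorem exists_delta : ∃ δ : Dˣ, (δ : D) = T.au + T.du - T.g * ((T.w⁻¹ : Dˣ) : D) ∧
    T.act δ (-2) = -2 ∧ T.act δ 12 = 12 := by
  obtain ⟨w', hw', h1, h2⟩ := T.exists_w'
  have hi24 : T.act T.w⁻¹ 24 = 24 := T.act_inv_eq T.act_w_24
  have hi0 : T.act T.w⁻¹ 0 = 0 := T.act_inv_eq T.act_w_0
  have o12 : T.Op ((T.w⁻¹ : Dˣ) : D) 12 24 :=
    T.op_unit ((T.act_le (by norm_num : (12 : ℚ) ≤ 24)).trans hi24.le)
  have o2 : T.Op ((T.w⁻¹ : Dˣ) : D) (-2) 0 :=
    T.op_unit ((T.act_le (by norm_num : (-2 : ℚ) ≤ 0)).trans hi0.le)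
  obtain ⟨δ, hδ, hδ1⟩ := T.ultra_op w' (-(T.g * ((T.w⁻¹ : Dˣ) : D))) (-2) (-56)
    (T.op_neg (T.op_mul T.op_g_0 o2)) (by rw [h1]; norm_num)
  obtain ⟨δ', hδ', hδ1'⟩ := T.ultra_op w' (-(T.g * ((T.w⁻¹ : Dˣ) : D))) 12 (73 / 8)
    (T.op_neg (T.op_mul T.op_g_24 o12)) (by rw [h2]; norm_num)
  have h3 : δ = δ' := Units.ext (by rw [hδ, hδ'])
  refine ⟨δ, by rw [hδ, hw', sub_eq_add_neg], by rw [hδ1, h1], ?_⟩
  rw [h3, hδ1', h2]

/-- `c r - r c` maps level `24` to level at most `0`. -/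
theorem op_comm_c : T.Op (T.c * T.r - T.r * T.c) 24 0 := by
  have e : T.c * T.r - T.r * T.c = ((T.cu 24 : D)) * T.r - T.r * (T.cu 8 : D) := by
    have e1 : (T.cu 8 : D) * T.r = T.r * (T.cu 24 : D) := by
      have : T.cu 8 * T.x ^ (-16 : ℤ) = T.x ^ (-16 : ℤ) * T.cu 24 := by
        rw [cu, cu, ← mul_assoc, ← mul_assoc, ← zpow_add, mul_assoc, ← zpow_add]
        norm_num
      have := congrArg Units.val this
      simpa [r] using this
    rw [c, add_mul, mul_add, e1]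
    abel
  rw [e]
  refine T.op_sub ?_ ?_
  · refine T.op_mul (T.op_cu_neg 24 (s := 8) (by norm_num) (by norm_num)) (T.op_r _ _ (by norm_num))
  · refine T.op_mul (T.op_r 10 0 (by norm_num)) (T.op_cu_pos 8 (by norm_num) (by norm_num))

/-- `f r - r f` maps level `24` to level at most `0`. -/
theorem op_comm_f : T.Op (T.f * T.r - T.r * T.f) 24 0 := by
  have e : T.f * T.r - T.r * T.f = ((T.cu 16 : D)) * T.r - T.r * (T.cu 0 : D) := by
    have e1 : (T.cu 0 : D) * T.r = T.r * (T.cu 16 : D) := by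
      have : T.cu 0 * T.x ^ (-16 : ℤ) = T.x ^ (-16 : ℤ) * T.cu 16 := by
        rw [cu, cu, ← mul_assoc, ← mul_assoc, ← zpow_add, mul_assoc, ← zpow_add]
        norm_num
      have := congrArg Units.val this
      simpa [r] using this
    rw [f, add_mul, mul_add, e1]
    abel
  rw [e]
  refine T.op_sub ?_ ?_
  · refine T.op_mul (T.op_cu_neg 16 (s := 8) (by norm_num) (by norm_num)) (T.op_r _ _ (by norm_num))
  · refine T.op_mul (T.op_r 3 0 (by norm_num)) (T.op_cu_pos 0 (by norm_num) (by norm_num))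

end TropD

end Helper7_Serial
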