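import Pool.Agent.Helper7_Serial.Real

/-!
# The negative answer, from a division ring acting on the rational line
-/

set_option autoImplicit false

namespace Helper7_Serial

/-- The negation of the statement that indecomposable summands of serial modules are uniserial. -/
theorem not_main {D : Type} [DivisionRing D] (T : TropD D) :
    ¬ (∀ (R : Type) [Ring R] (M : Type) [AddCommGroup M] [Module R M],
      (∃ (ι : Type) (U : ι → Submodule R M),
          iSupIndep U ∧ (⨆ i, U i) = ⊤ ∧
          ∀ i, ∀ A B : Submodule R M, A ≤ U i → B ≤ U i → A ≤ B ∨ B ≤ A) →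
      ∀ N : Submodule R M,
        (∃ N' : Submodule R M, IsCompl N N') →
        N ≠ ⊥ →
        (∀ A B : Submodule R M, A ⊔ B = N → A ⊓ B = ⊥ → A = ⊥ ∨ B = ⊥) →
        ∀ A B : Submodule R M, A ≤ N → B ≤ N → A ≤ B ∨ B ≤ A) := by
  intro h
  obtain ⟨M, i1, i2, hser, N, hN, hN0, hind, hnot⟩ := T.data.counterexample
  exact hnot (h T.Rg M hser N hN hN0 hind)

end Helper7_Serial
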