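import Pool.Agent.Helper7_Serial.Trop

/-!
# Interval modules `L b / L a`
-/

set_option autoImplicit false

namespace Helper7_Serial

namespace TropD

variable {D : Type} [DivisionRing D] (T : TropD D)

/-- Elements of level at most `s`. -/
def L (s : ℚ) : AddSubgroup D where
  carrier := {y | T.Op y 0 s}
  add_mem' := fun hy hz => T.op_add hy hz
  zero_mem' := T.op_zero _ _
  neg_mem' := fun hy => T.op_neg hy

theorem mem_L {s : ℚ} {y : D} : y ∈ T.L s ↔ T.Op y 0 s := Iff.rfl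

theorem mul_mem_L {z y : D} {s r : ℚ} (hz : T.Op z s r) (hy : y ∈ T.L s) : z * y ∈ T.L r :=
  T.op_mul hz hy

theorem mul_mem_L_right {y z : D} {s : ℚ} (hy : y ∈ T.L s) (hz : z ∈ T.L 0) : y * z ∈ T.L s :=
  T.op_mul hy hz

theorem L_mono {s r : ℚ} (h : s ≤ r) : T.L s ≤ T.L r := fun _ hy => T.op_mono hy le_rfl h

/-- The additive group `L b / L a`. -/
abbrev I (a b : ℚ) : Type := (T.L b) ⧸ (T.L a).addSubgroupOf (T.L b)

/-- Multiplication on the left by `z` as a map `L b / L a → L b' / L a'`. -/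
def lmul (z : D) {a b a' b' : ℚ} (hb : T.Op z b b') (ha : T.Op z a a') : T.I a b →+ T.I a' b' :=
  QuotientAddGroup.map _ _
    (((AddMonoidHom.mulLeft z).comp (T.L b).subtype).codRestrict (T.L b')
      (fun y => T.mul_mem_L hb y.2))
    (fun y hy => by
      rw [AddSubgroup.mem_comap, AddSubgroup.mem_addSubgroupOf]
      exact T.mul_mem_L ha (AddSubgroup.mem_addSubgroupOf.1 hy))

/-- Multiplication on the right by `z ∈ L 0`. -/
def rmul (z : D) (hz : z ∈ T.L 0) (a b : ℚ) : T.I a b →+ T.I a b :=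
  QuotientAddGroup.map _ _
    (((AddMonoidHom.mulRight z).comp (T.L b).subtype).codRestrict (T.L b)
      (fun y => T.mul_mem_L_right y.2 hz))
    (fun y hy => by
      rw [AddSubgroup.mem_comap, AddSubgroup.mem_addSubgroupOf]
      exact T.mul_mem_L_right (AddSubgroup.mem_addSubgroupOf.1 hy) hz)

/-- The class of an element of `L b`. -/
def cls (a b : ℚ) (y : D) (hy : y ∈ T.L b) : T.I a b := QuotientAddGroup.mk ⟨y, hy⟩

theorem cls_surj {a b : ℚ} (v : T.I a b) : ∃ y, ∃ hy : y ∈ T.L b, v = T.cls a b y hy := by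
  induction v using QuotientAddGroup.induction_on with
  | H z => exact ⟨z.1, z.2, rfl⟩

theorem cls_eq {a b : ℚ} {y z : D} {hy : y ∈ T.L b} {hz : z ∈ T.L b} :
    T.cls a b y hy = T.cls a b z hz ↔ y - z ∈ T.L a := by
  rw [cls, cls, QuotientAddGroup.eq, AddSubgroup.mem_addSubgroupOf]
  have e : ((-(⟨y, hy⟩ : T.L b) + ⟨z, hz⟩ : T.L b) : D) = -(y - z) := by
    change -y + z = -(y - z)
    abel
  rw [e, neg_mem_iff]

theorem cls_eq_zero {a b : ℚ} {y : D} {hy : y ∈ T.L b} : T.cls a b y hy = 0 ↔ y ∈ T.L a := by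
  have : (0 : T.I a b) = T.cls a b 0 (zero_mem _) := rfl
  rw [this, cls_eq, sub_zero]

theorem cls_add {a b : ℚ} {y z : D} {hy : y ∈ T.L b} {hz : z ∈ T.L b} :
    T.cls a b y hy + T.cls a b z hz = T.cls a b (y + z) (add_mem hy hz) := rfl

theorem lmul_cls {z : D} {a b a' b' : ℚ} (hb : T.Op z b b') (ha : T.Op z a a') {y : D}
    (hy : y ∈ T.L b) : T.lmul z hb ha (T.cls a b y hy) = T.cls a' b' (z * y) (T.mul_mem_L hb hy) :=
  rfl

theorem rmul_cls {z : D} (hz : z ∈ T.L 0) {a b : ℚ} {y : D} (hy : y ∈ T.L b) :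
    T.rmul z hz a b (T.cls a b y hy) = T.cls a b (y * z) (T.mul_mem_L_right hy hz) := rfl

/-- Left and right multiplications commute. -/
theorem lmul_rmul {z ρ : D} {a b a' b' : ℚ} (hb : T.Op z b b') (ha : T.Op z a a')
    (hρ : ρ ∈ T.L 0) (v : T.I a b) :
    T.lmul z hb ha (T.rmul ρ hρ a b v) = T.rmul ρ hρ a' b' (T.lmul z hb ha v) := by
  obtain ⟨y, hy, rfl⟩ := T.cls_surj v
  rw [rmul_cls, lmul_cls, lmul_cls, rmul_cls]
  congr 1
  exact (mul_assoc _ _ _).symm

/-- If the level of `y` is at least the level of `z` then `z = y ρ` with `ρ ∈ L 0`. -/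
theorem exists_right {y : Dˣ} {z : D} (h : T.Op z 0 (T.act y 0)) : ∃ ρ ∈ T.L 0, z = y * ρ := by
  refine ⟨((y⁻¹ : Dˣ) : D) * z, ?_, by rw [Units.mul_inv_cancel_left]⟩
  exact T.op_mul (T.op_unit (by rw [act_inv])) h

theorem comparable (y z : D) : (∃ ρ ∈ T.L 0, z = y * ρ) ∨ (∃ ρ ∈ T.L 0, y = z * ρ) := by
  by_cases hz : z = 0
  · exact Or.inl ⟨0, zero_mem _, by rw [hz, mul_zero]⟩
  by_cases hy : y = 0
  · exact Or.inr ⟨0, zero_mem _, by rw [hy, mul_zero]⟩
  rcases le_total (T.act (Units.mk0 z hz) 0) (T.act (Units.mk0 y hy) 0) with h | h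
  · left
    have := T.exists_right (y := Units.mk0 y hy) (z := z)
      (by
        have := T.op_unit (w := Units.mk0 z hz) h
        rwa [Units.val_mk0] at this)
    rwa [Units.val_mk0] at this
  · right
    have := T.exists_right (y := Units.mk0 z hz) (z := y)
      (by
        have := T.op_unit (w := Units.mk0 y hy) h
        rwa [Units.val_mk0] at this)
    rwa [Units.val_mk0] at this

end TropD

end Helper7_Serial
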