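import Mathlib

/-!
# An indecomposable summand of Goldie dimension two

Module theoretic part: from two uniserial modules `V`, `U` with suitable maps we construct an
indecomposable direct summand of `(V × U)^(ℕ)` that is not uniserial.
-/

set_option autoImplicit false

open Submodule

namespace Helper7_Serial

/-- In a uniserial module any two elements are comparable. -/
theorem elt_comparable {R V : Type} [Ring R] [AddCommGroup V] [Module R V]
    (hV : ∀ A B : Submodule R V, A ≤ B ∨ B ≤ A) (x y : V) :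
    (∃ r : R, x = r • y) ∨ (∃ r : R, y = r • x) := by
  rcases hV (R ∙ x) (R ∙ y) with h | h
  · left
    have := h (mem_span_singleton_self x)
    obtain ⟨r, hr⟩ := mem_span_singleton.1 this
    exact ⟨r, hr.symm⟩
  · right
    have := h (mem_span_singleton_self y)
    obtain ⟨r, hr⟩ := mem_span_singleton.1 this
    exact ⟨r, hr.symm⟩

/-- The data of the construction. -/
structure Data (R V U : Type) [Ring R] [AddCommGroup V] [Module R V] [AddCommGroup U]
    [Module R U] where
  hV : ∀ A B : Submodule R V, A ≤ B ∨ B ≤ A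
  hU : ∀ A B : Submodule R U, A ≤ B ∨ B ≤ A
  v0 : V
  hv0 : ∀ v : V, ∃ r : R, v = r • v0
  u0 : U
  hu0 : u0 ≠ 0
  r0 : R
  hr0U : ∀ u : U, r0 • u = 0
  w0 : V
  hw0 : r0 • w0 ≠ 0
  hr0 : ∀ v : V, r0 • v ≠ 0 → ∀ v' : V, ∃ ρ : R, r0 • v' = ρ • v
  c : V →ₗ[R] V
  f : V →ₗ[R] V
  a : U →ₗ[R] U
  d : U →ₗ[R] U
  g : V →ₗ[R] U
  s : U →ₗ[R] V
  hf : Function.Injective f
  hfs : ¬ Function.Surjective f
  ha : Function.Injective a
  h1 : ∀ v, c (f v) + s (g v) = 0
  h2 : ∀ u, s (a u) = 0
  h3 : ∀ v, d (g v) = 0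
  h4 : ∀ u, d (a u) = 0
  W : (V × U) ≃ₗ[R] (V × U)
  hW1 : ∀ v u, (W (v, u)).1 = c v + f v + s u
  hW2 : ∀ v u, (W (v, u)).2 = g v + (a u + d u)

namespace Data

variable {R V U : Type} [Ring R] [AddCommGroup V] [Module R V] [AddCommGroup U] [Module R U]
variable (X : Data R V U)

/-- `F (v, u) = (f v, g v + a u)`. -/
def F : (V × U) →ₗ[R] (V × U) :=
  (X.f.comp (LinearMap.fst R V U)).prod
    (X.g.comp (LinearMap.fst R V U) + X.a.comp (LinearMap.snd R V U))

theorem F_apply (p : V × U) : X.F p = (X.f p.1, X.g p.1 + X.a p.2) := rfl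

/-- `F² = W F`. -/
theorem F_F (p : V × U) : X.F (X.F p) = X.W (X.F p) := by
  obtain ⟨v, u⟩ := p
  have e : X.W (X.F (v, u)) = ((X.W (X.F (v, u))).1, (X.W (X.F (v, u))).2) := rfl
  rw [e, X.F_apply, X.F_apply]
  simp only
  rw [X.hW1, X.hW2]
  refine Prod.ext ?_ ?_
  · simp only [map_add]
    have h1 := X.h1 v
    have h2 := X.h2 u
    rw [h2, add_zero]
    have : X.c (X.f v) + X.f (X.f v) + X.s (X.g v) = X.f (X.f v) + (X.c (X.f v) + X.s (X.g v)) := by
      abel
    rw [this, h1, add_zero]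
  · simp only [map_add]
    rw [X.h3, X.h4]
    abel

theorem F_injective : Function.Injective X.F := by
  rw [injective_iff_map_eq_zero]
  rintro ⟨v, u⟩ h
  rw [X.F_apply] at h
  simp only [Prod.mk_eq_zero] at h
  obtain ⟨h1, h2⟩ := h
  have hv : v = 0 := X.hf (by rw [h1, map_zero])
  subst hv
  rw [map_zero, zero_add] at h2
  have hu : u = 0 := X.ha (by rw [h2, map_zero])
  rw [hu]
  rfl

/-- powers of `W` (as linear maps) and of its inverse. -/
def Wp (n : ℕ) : (V × U) →ₗ[R] (V × U) := (X.W : (V × U) →ₗ[R] (V × U)) ^ n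

def Wm (n : ℕ) : (V × U) →ₗ[R] (V × U) := (X.W.symm : (V × U) →ₗ[R] (V × U)) ^ n

theorem Wp_succ (n : ℕ) (p : V × U) : X.Wp (n + 1) p = X.Wp n (X.W p) := by
  rw [Wp, pow_succ]; rfl

theorem Wp_succ' (n : ℕ) (p : V × U) : X.Wp (n + 1) p = X.W (X.Wp n p) := by
  rw [Wp, pow_succ']; rfl

theorem Wm_succ (n : ℕ) (p : V × U) : X.Wm (n + 1) p = X.Wm n (X.W.symm p) := by
  rw [Wm, pow_succ]; rfl

theorem Wm_succ' (n : ℕ) (p : V × U) : X.Wm (n + 1) p = X.W.symm (X.Wm n p) := by
  rw [Wm, pow_succ']; rfl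

theorem Wp_zero (p : V × U) : X.Wp 0 p = p := by rw [Wp, pow_zero]; rfl

theorem Wm_zero (p : V × U) : X.Wm 0 p = p := by rw [Wm, pow_zero]; rfl

theorem Wp_Wm (n : ℕ) (p : V × U) : X.Wp n (X.Wm n p) = p := by
  induction n generalizing p with
  | zero => rw [Wm_zero, Wp_zero]
  | succ n ih => rw [Wm_succ', Wp_succ, LinearEquiv.apply_symm_apply, ih]

theorem Wm_Wp (n : ℕ) (p : V × U) : X.Wm n (X.Wp n p) = p := by
  induction n generalizing p with
  | zero => rw [Wp_zero, Wm_zero]
  | succ n ih => rw [Wp_succ', Wm_succ, LinearEquiv.symm_apply_apply, ih]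

/-- `E n = W^{-(n+1)} F W^n`. -/
def E (n : ℕ) : (V × U) →ₗ[R] (V × U) := (X.Wm (n + 1)).comp (X.F.comp (X.Wp n))

theorem E_apply (n : ℕ) (p : V × U) : X.E n p = X.Wm (n + 1) (X.F (X.Wp n p)) := rfl

theorem E_succ_E (n : ℕ) (p : V × U) : X.E (n + 1) (X.E n p) = X.E n p := by
  rw [E_apply, E_apply, Wp_Wm, F_F, Wm_succ, LinearEquiv.symm_apply_apply]

theorem E_fix_succ {n : ℕ} {p : V × U} (h : X.E n p = p) : X.E (n + 1) p = p := by
  conv_lhs => rw [← h]
  rw [E_succ_E, h]

theorem E_fix_of_le {n m : ℕ} (hnm : n ≤ m) {p : V × U} (h : X.E n p = p) : X.E m p = p := by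
  induction m, hnm using Nat.le_induction with
  | base => exact h
  | succ m _ ih => exact X.E_fix_succ ih

/-- The submodule `N` of `V × U` of all elements fixed by some `E n`. -/
def N : Submodule R (V × U) where
  carrier := {p | ∃ n, X.E n p = p}
  add_mem' := by
    rintro p q ⟨n, hn⟩ ⟨m, hm⟩
    refine ⟨max n m, ?_⟩
    rw [map_add, X.E_fix_of_le (le_max_left n m) hn, X.E_fix_of_le (le_max_right n m) hm]
  zero_mem' := ⟨0, map_zero _⟩
  smul_mem' := by
    rintro r p ⟨n, hn⟩
    exact ⟨n, by rw [map_smul, hn]⟩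

theorem mem_N {p : V × U} : p ∈ X.N ↔ ∃ n, X.E n p = p := Iff.rfl

theorem E_mem (n : ℕ) (p : V × U) : X.E n p ∈ X.N := ⟨n + 1, X.E_succ_E n p⟩

theorem Wm_F_mem (n : ℕ) (p : V × U) : X.Wm (n + 1) (X.F p) ∈ X.N := by
  have := X.E_mem n (X.Wm n p)
  rwa [E_apply, Wp_Wm] at this

/-- `E n` as a map into `N`. -/
def EN (n : ℕ) : (V × U) →ₗ[R] X.N := (X.E n).codRestrict X.N (X.E_mem n)

theorem EN_coe (n : ℕ) (p : V × U) : (X.EN n p : V × U) = X.E n p := rfl

/-- `θ₀ n = W^{-(n+1)} F` as a map into `N`. -/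
def TN (n : ℕ) : (V × U) →ₗ[R] X.N :=
  ((X.Wm (n + 1)).comp X.F).codRestrict X.N (X.Wm_F_mem n)

theorem TN_coe (n : ℕ) (p : V × U) : (X.TN n p : V × U) = X.Wm (n + 1) (X.F p) := rfl

theorem EN_eq (n : ℕ) (p : V × U) : X.EN n p = X.TN n (X.Wp n p) := rfl

/-- The first coordinate on `N`. -/
def p1 : X.N →ₗ[R] V := (LinearMap.fst R V U).comp X.N.subtype

/-- The second coordinate on `N`. -/
def p2 : X.N →ₗ[R] U := (LinearMap.snd R V U).comp X.N.subtype

theorem N_ext {x y : X.N} (h1 : X.p1 x = X.p1 y) (h2 : X.p2 x = X.p2 y) : x = y :=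
  Subtype.ext (Prod.ext h1 h2)

/-- The embedding of `V` in `N`. -/
def iota : V →ₗ[R] X.N := (X.EN 0).comp (LinearMap.inl R V U)

theorem EN_zero_injective : Function.Injective (X.EN 0) := by
  intro p q h
  have h' : X.E 0 p = X.E 0 q := congrArg Subtype.val h
  rw [E_apply, E_apply, Wp_zero, Wp_zero] at h'
  have h2 : X.F p = X.F q := by
    have := congrArg (X.Wp (0 + 1)) h'
    rwa [Wp_Wm, Wp_Wm] at this
  exact X.F_injective h2

theorem iota_injective : Function.Injective X.iota := by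
  intro v v' h
  have := X.EN_zero_injective h
  exact congrArg Prod.fst this

/-- Step 1: the first coordinate is injective on the range of `e`. -/
theorem step1 (e : X.N →ₗ[R] X.N) (he : ∀ y, e (e y) = e y)
    (hinj : ∀ v, e (X.iota v) = 0 → v = 0) (b : X.N) (hb : b ≠ 0) (heb : e b = 0)
    (y : X.N) (hy : e y = y) (hy1 : X.p1 y = 0) : y = 0 := by
  by_contra hy0
  -- a nonzero element of the range with second coordinate zero
  have hy2' : X.p2 y ≠ 0 := fun h => hy0 (X.N_ext (by rw [hy1, map_zero]) (by rw [h, map_zero]))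
  set z := e (X.iota (X.r0 • X.w0)) with hz
  have hz0 : z ≠ 0 := fun h => X.hw0 (hinj _ h)
  have hze : e z = z := he _
  have hz2 : X.p2 z = 0 := by
    rw [hz, map_smul, map_smul, map_smul]
    exact X.hr0U _
  have hz1 : X.p1 z ≠ 0 := fun h => hz0 (X.N_ext (by rw [h, map_zero]) (by rw [hz2, map_zero]))
  by_cases hb1 : X.p1 b = 0
  · rcases elt_comparable X.hU (X.p2 b) (X.p2 y) with ⟨r, hr⟩ | ⟨r, hr⟩
    · have : b = r • y := X.N_ext (by rw [map_smul, hb1, hy1, smul_zero]) (by rw [map_smul, hr])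
      have h2 : e b = b := by rw [this, map_smul, hy]
      exact hb (by rw [← h2, heb])
    · have : y = r • b := X.N_ext (by rw [map_smul, hb1, hy1, smul_zero]) (by rw [map_smul, hr])
      apply hy0
      rw [← hy, this, map_smul, heb, smul_zero]
  · obtain ⟨b', ρ, hb'0, heb', hb'⟩ : ∃ (b' : X.N) (ρ : R), b' ≠ 0 ∧ e b' = 0 ∧
        X.p1 b' = ρ • X.p1 z := by
      rcases elt_comparable X.hV (X.p1 b) (X.p1 z) with ⟨r, hr⟩ | ⟨r, hr⟩
      · exact ⟨b, r, hb, heb, hr⟩
      · refine ⟨r • b, 1, ?_, by rw [map_smul, heb, smul_zero], by rw [map_smul, ← hr, one_smul]⟩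
        intro h
        apply hz1
        rw [hr, ← map_smul, h, map_zero]
    set t := b' - ρ • z with ht
    have ht1 : X.p1 t = 0 := by rw [ht, map_sub, map_smul, hb', sub_self]
    have het : e t = -(ρ • z) := by rw [ht, map_sub, heb', map_smul, hze, zero_sub]
    rcases elt_comparable X.hU (X.p2 t) (X.p2 y) with ⟨r, hr⟩ | ⟨r, hr⟩
    · have h1 : t = r • y := X.N_ext (by rw [map_smul, ht1, hy1, smul_zero]) (by rw [map_smul, hr])
      have h2 : e t = t := by rw [h1, map_smul, hy]
      rw [het, ht] at h2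
      apply hb'0
      have : b' = b' - ρ • z + ρ • z := by abel
      rw [this, ← h2]
      abel
    · have h1 : y = r • t := X.N_ext (by rw [map_smul, ht1, hy1, smul_zero]) (by rw [map_smul, hr])
      apply hy2'
      rw [← hy, h1, map_smul, het, map_smul, map_neg, map_smul, hz2, smul_zero, neg_zero, smul_zero]

/-- An idempotent endomorphism of `N` which is injective on the copy of `V` is the identity. -/
theorem idem_eq_id (e : X.N →ₗ[R] X.N) (he : ∀ y, e (e y) = e y)
    (hinj : ∀ v, e (X.iota v) = 0 → v = 0) (y0 : X.N) : e y0 = y0 := by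
  by_contra hne
  have hb : y0 - e y0 ≠ 0 := fun h => hne (sub_eq_zero.1 h).symm
  have heb : e (y0 - e y0) = 0 := by rw [map_sub, he, sub_self]
  have s1 := X.step1 e he hinj _ hb heb
  -- the range of `e`
  set A : Submodule R X.N := LinearMap.range e with hA
  have hAe : ∀ x ∈ A, e x = x := by
    rintro x ⟨y, rfl⟩
    exact he y
  have hAmem : ∀ x, e x ∈ A := fun x => ⟨x, rfl⟩
  have hp1 : ∀ x ∈ A, ∀ y ∈ A, X.p1 x = X.p1 y → x = y := by
    intro x hx y hy h
    have : x - y = 0 := s1 (x - y) (by rw [map_sub, hAe x hx, hAe y hy])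
      (by rw [map_sub, h, sub_self])
    exact sub_eq_zero.1 this
  have hcompE : ∀ x ∈ A, ∀ y ∈ A, (∃ r : R, x = r • y) ∨ (∃ r : R, y = r • x) := by
    intro x hx y hy
    rcases elt_comparable X.hV (X.p1 x) (X.p1 y) with ⟨r, hr⟩ | ⟨r, hr⟩
    · left
      exact ⟨r, hp1 x hx _ (A.smul_mem r hy) (by rw [map_smul, hr])⟩
    · right
      exact ⟨r, hp1 y hy _ (A.smul_mem r hx) (by rw [map_smul, hr])⟩
  have hcomp : ∀ B C : Submodule R X.N, B ≤ A → C ≤ A → B ≤ C ∨ C ≤ B := by
    intro B C hB hC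
    by_contra hcon
    push Not at hcon
    obtain ⟨h1, h2⟩ := hcon
    obtain ⟨b, hbB, hbC⟩ := Set.not_subset.1 h1
    obtain ⟨c, hcC, hcB⟩ := Set.not_subset.1 h2
    rcases hcompE b (hB hbB) c (hC hcC) with ⟨r, hr⟩ | ⟨r, hr⟩
    · exact hbC (by rw [SetLike.mem_coe, hr]; exact C.smul_mem r hcC)
    · exact hcB (by rw [SetLike.mem_coe, hr]; exact B.smul_mem r hbB)
  -- the special element
  set vs : X.N := e (X.iota X.w0) with hvs
  have hvsA : vs ∈ A := hAmem _
  have hvs0 : X.r0 • vs ≠ 0 := by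
    rw [hvs, ← map_smul, ← map_smul]
    exact fun h => X.hw0 (hinj _ h)
  obtain ⟨n, hn⟩ := vs.2
  have hn' : X.EN n vs = vs := Subtype.ext hn
  -- the map `ψ`
  set ψ : X.N →ₗ[R] X.N := e.comp ((X.EN n).comp X.N.subtype) with hψ
  have hψA : ∀ x, ψ x ∈ A := fun x => hAmem _
  have hψvs : ψ vs = vs := by
    change e (X.EN n vs) = vs
    rw [hn', hAe vs hvsA]
  -- `ψ` is not onto `A`
  have hnot : ¬ A ≤ A.map ψ := by
    intro honto
    set β : V →ₗ[R] X.N := e.comp ((X.TN n).comp (LinearMap.inl R V U)) with hβ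
    set γ : U →ₗ[R] X.N := e.comp ((X.TN n).comp (LinearMap.inr R V U)) with hγ
    set ν : X.N →ₗ[R] V := (LinearMap.fst R V U).comp ((X.Wp n).comp X.N.subtype) with hν
    set μ : X.N →ₗ[R] U := (LinearMap.snd R V U).comp ((X.Wp n).comp X.N.subtype) with hμ
    have hsum : ∀ y, ψ y = β (ν y) + γ (μ y) := by
      intro y
      have e1 : X.Wp n (y : V × U) = LinearMap.inl R V U (ν y) + LinearMap.inr R V U (μ y) := by
        rw [LinearMap.inl_apply, LinearMap.inr_apply, Prod.mk_add_mk, add_zero, zero_add]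
        rfl
      change e (X.TN n (X.Wp n (y : V × U))) = _
      rw [e1, map_add, map_add]
      rfl
    -- `A` is the image of `A` under `β ∘ ν`
    have hA1 : A ≤ A.map (β.comp ν) := by
      have hle : A ≤ A.map (β.comp ν) ⊔ A.map (γ.comp μ) := by
        intro x hx
        obtain ⟨y, hy, rfl⟩ := honto hx
        rw [hsum]
        exact Submodule.add_mem_sup ⟨y, hy, rfl⟩ ⟨y, hy, rfl⟩
      have hB1 : A.map (β.comp ν) ≤ A := by
        rintro _ ⟨y, _, rfl⟩
        exact hAmem _
      have hB2 : A.map (γ.comp μ) ≤ A := by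
        rintro _ ⟨y, _, rfl⟩
        exact hAmem _
      rcases hcomp _ _ hB1 hB2 with h | h
      · exfalso
        rw [sup_eq_right.2 h] at hle
        obtain ⟨y, _, hy⟩ := hle hvsA
        apply hvs0
        rw [← hy, ← map_smul]
        change γ (μ (X.r0 • y)) = 0
        rw [map_smul, X.hr0U, map_zero]
      · rwa [sup_eq_left.2 h] at hle
    have hνonto : ∀ v, ∃ y ∈ A, ν y = v := by
      rcases X.hV (LinearMap.ker β) (A.map ν) with h | h
      · intro v
        obtain ⟨y, hy, hyv⟩ := hA1 (hAmem (X.TN n (LinearMap.inl R V U v)))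
        have hk : v - ν y ∈ LinearMap.ker β := by
          rw [LinearMap.mem_ker, map_sub]
          change β v - (β.comp ν) y = 0
          rw [hyv]
          exact sub_self _
        obtain ⟨y', hy', hyv'⟩ := h hk
        refine ⟨y' + y, A.add_mem hy' hy, ?_⟩
        rw [map_add, hyv']
        abel
      · exfalso
        obtain ⟨y, hy, hyv⟩ := hA1 hvsA
        have : β (ν y) = 0 := h ⟨y, hy, rfl⟩
        apply hvs0
        rw [← hyv]
        change X.r0 • β (ν y) = 0
        rw [this, smul_zero]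
    obtain ⟨m, hm⟩ := (β X.v0).2
    have hfix : ∀ v, X.EN m (β v : X.N) = β v := by
      intro v
      obtain ⟨r, hr⟩ := X.hv0 v
      have h0 : X.EN m (β X.v0 : X.N) = β X.v0 := Subtype.ext hm
      rw [hr, map_smul, Submodule.coe_smul, map_smul, h0]
    have honV : ∀ v' : V, ∃ v, ν (β v) = v' := by
      intro v'
      obtain ⟨y, hy, rfl⟩ := hνonto v'
      obtain ⟨y', _, hy'⟩ := hA1 hy
      exact ⟨ν y', by rw [← hy']; rfl⟩
    set q : (V × U) →ₗ[R] V := (LinearMap.fst R V U).comp ((X.Wp n).comp (X.Wm (m + 1))) with hq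
    set xx : V →ₗ[R] (V × U) := (X.Wp m).comp (X.N.subtype.comp β) with hxx
    have hqF : ∀ v, ν (β v) = q (X.F (xx v)) := by
      intro v
      conv_lhs => rw [← hfix v]
      rfl
    have hq2 : ∀ p : V × U, q p = (q.comp (LinearMap.inl R V U)) p.1 +
        (q.comp (LinearMap.inr R V U)) p.2 := by
      intro p
      have e1 : p = LinearMap.inl R V U p.1 + LinearMap.inr R V U p.2 := by
        rw [LinearMap.inl_apply, LinearMap.inr_apply, Prod.mk_add_mk, add_zero, zero_add]
      conv_lhs => rw [e1]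
      rw [map_add]
      rfl
    set Y : Submodule R V := LinearMap.range (X.f.comp ((LinearMap.fst R V U).comp xx)) with hY
    set Z1 : Submodule R V := Y.map (q.comp (LinearMap.inl R V U)) with hZ1
    set Z2 : Submodule R V := LinearMap.range (q.comp (LinearMap.inr R V U)) with hZ2
    have htop : (⊤ : Submodule R V) ≤ Z1 ⊔ Z2 := by
      intro v' _
      obtain ⟨v, rfl⟩ := honV v'
      rw [hqF, hq2]
      exact Submodule.add_mem_sup ⟨_, ⟨v, rfl⟩, rfl⟩ ⟨_, rfl⟩
    rcases X.hV Z1 Z2 with h | h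
    · rw [sup_eq_right.2 h] at htop
      obtain ⟨u, hu⟩ := htop (x := X.w0) trivial
      apply X.hw0
      rw [← hu, ← map_smul, X.hr0U, map_zero]
    · rw [sup_eq_left.2 h] at htop
      rcases X.hV (LinearMap.ker (q.comp (LinearMap.inl R V U))) Y with h2 | h2
      · apply X.hfs
        intro v
        obtain ⟨y, hy, hyv⟩ := htop (x := (q.comp (LinearMap.inl R V U)) v) trivial
        have hk : v - y ∈ LinearMap.ker (q.comp (LinearMap.inl R V U)) := by
          rw [LinearMap.mem_ker, map_sub, hyv, sub_self]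
        have hvY : v ∈ Y := by
          have := Y.add_mem (h2 hk) hy
          rwa [sub_add_cancel] at this
        obtain ⟨x, hx⟩ := hvY
        exact ⟨_, hx⟩
      · obtain ⟨y, hy, hyv⟩ := htop (x := X.w0) trivial
        apply X.hw0
        have : (q.comp (LinearMap.inl R V U)) y = 0 := h2 hy
        rw [← hyv, this, smul_zero]
  -- `k = 1 - ψ` is onto `A`
  set k : X.N →ₗ[R] X.N := LinearMap.id - ψ with hk
  have hkA : A ≤ A.map k := by
    have hle : A ≤ A.map k ⊔ A.map ψ := by
      intro x hx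
      have e1 : x = k x + ψ x := by
        rw [hk, LinearMap.sub_apply, LinearMap.id_apply, sub_add_cancel]
      rw [e1]
      exact Submodule.add_mem_sup ⟨x, hx, rfl⟩ ⟨x, hx, rfl⟩
    have hB1 : A.map k ≤ A := by
      rintro _ ⟨y, hy, rfl⟩
      rw [hk, LinearMap.sub_apply, LinearMap.id_apply]
      exact A.sub_mem hy (hψA _)
    have hB2 : A.map ψ ≤ A := by
      rintro _ ⟨y, _, rfl⟩
      exact hψA _
    rcases hcomp _ _ hB1 hB2 with h | h
    · exfalso
      rw [sup_eq_right.2 h] at hle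
      exact hnot hle
    · rwa [sup_eq_left.2 h] at hle
  have hkvs : k vs = 0 := by
    rw [hk, LinearMap.sub_apply, LinearMap.id_apply, hψvs, sub_self]
  obtain ⟨x, hx, hxv⟩ := hkA hvsA
  have hr : X.r0 • X.p1 vs ≠ 0 := by
    intro h
    apply hvs0
    exact s1 _ (by rw [map_smul, hAe vs hvsA]) (by rw [map_smul, h])
  obtain ⟨ρ, hρ⟩ := X.hr0 (X.p1 vs) hr (X.p1 x)
  have hxρ : X.r0 • x = ρ • vs :=
    hp1 _ (A.smul_mem _ hx) _ (A.smul_mem _ hvsA) (by rw [map_smul, map_smul, hρ])
  apply hvs0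
  rw [← hxv, ← map_smul, hxρ, map_smul, hkvs, smul_zero]

/-- `N` is indecomposable: every idempotent endomorphism is `0` or `1`. -/
theorem idem_trivial (e : X.N →ₗ[R] X.N) (he : ∀ y, e (e y) = e y) :
    (∀ y, e y = y) ∨ (∀ y, e y = 0) := by
  have hker : (LinearMap.ker (e.comp X.iota) = ⊥) ∨
      (LinearMap.ker ((LinearMap.id - e).comp X.iota) = ⊥) := by
    rcases X.hV (LinearMap.ker (e.comp X.iota)) (LinearMap.ker ((LinearMap.id - e).comp X.iota))
      with h | h
    · left
      rw [eq_bot_iff]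
      intro v hv
      have h1 : e (X.iota v) = 0 := hv
      have h2 : X.iota v - e (X.iota v) = 0 := h hv
      rw [h1, sub_zero] at h2
      exact X.iota_injective (by rw [h2, map_zero])
    · right
      rw [eq_bot_iff]
      intro v hv
      have h1 : e (X.iota v) = 0 := h hv
      have h2 : X.iota v - e (X.iota v) = 0 := hv
      rw [h1, sub_zero] at h2
      exact X.iota_injective (by rw [h2, map_zero])
  rcases hker with h | h
  · left
    exact X.idem_eq_id e he fun v hv => by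
      have : v ∈ LinearMap.ker (e.comp X.iota) := hv
      rwa [h] at this
  · right
    have h2 := X.idem_eq_id (LinearMap.id - e) (fun y => by
      simp only [LinearMap.sub_apply, LinearMap.id_apply, map_sub, he]
      abel) (fun v hv => by
      have : v ∈ LinearMap.ker ((LinearMap.id - e).comp X.iota) := hv
      rwa [h] at this)
    intro y
    have := h2 y
    rw [LinearMap.sub_apply, LinearMap.id_apply, sub_eq_self] at this
    exact this

end Data

end Helper7_Serial
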