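import Pool.Agent.Helper7_Serial.ModThm

/-!
# The module `N` as a direct summand of a serial module
-/

set_option autoImplicit false

open Submodule

namespace Helper7_Serial

namespace Data

variable {R V U : Type} [Ring R] [AddCommGroup V] [Module R V] [AddCommGroup U] [Module R U]
variable (X : Data R V U)

/-- components of the embedding `N → (V × U)^(ℕ)`. -/
def comp : ℕ → X.N →ₗ[R] (V × U)
  | 0 => X.N.subtype
  | (n + 1) => X.N.subtype - (X.E n).comp X.N.subtype

theorem comp_zero (y : X.N) : X.comp 0 y = y := rfl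

theorem comp_succ (n : ℕ) (y : X.N) : X.comp (n + 1) y = (y : V × U) - X.E n y := rfl

theorem comp_support (y : X.N) : ∃ m, X.E m y = (y : V × U) ∧ ∀ n, m < n → X.comp n y = 0 := by
  obtain ⟨m, hm⟩ := y.2
  refine ⟨m, hm, ?_⟩
  rintro (_ | n) hn
  · omega
  · rw [comp_succ, X.E_fix_of_le (by omega) hm, sub_self]

/-- The embedding. -/
noncomputable def sig : X.N →ₗ[R] (ℕ →₀ (V × U)) where
  toFun y := Finsupp.ofSupportFinite (fun n => X.comp n y) (by
    obtain ⟨m, _, hm⟩ := X.comp_support y
    refine (Set.finite_Iic m).subset ?_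
    intro n hn
    by_contra h
    exact hn (hm n (not_le.1 h)))
  map_add' x y := by
    ext n : 1
    exact map_add (X.comp n) x y
  map_smul' r y := by
    ext n : 1
    exact map_smul (X.comp n) r y

theorem sig_apply (y : X.N) (n : ℕ) : X.sig y n = X.comp n y := rfl

/-- The projection. -/
noncomputable def proj : (ℕ →₀ (V × U)) →ₗ[R] X.N := Finsupp.lsum ℕ fun n => X.EN n

theorem proj_sig (y : X.N) : X.proj (X.sig y) = y := by
  obtain ⟨m, hm, hm'⟩ := X.comp_support y
  have hsub : (X.sig y).support ⊆ Finset.range (m + 1) := by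
    intro n hn
    rw [Finsupp.mem_support_iff, sig_apply] at hn
    rw [Finset.mem_range]
    by_contra h
    exact hn (hm' n (by omega))
  have h1 : X.proj (X.sig y) = ∑ n ∈ Finset.range (m + 1), X.EN n (X.comp n y) := by
    rw [proj, Finsupp.lsum_apply, Finsupp.sum_of_support_subset _ hsub]
    · rfl
    · intro n _
      exact map_zero _
  have h2 : ∀ k, ∑ n ∈ Finset.range (k + 1), X.EN n (X.comp n y) = X.EN k (y : V × U) := by
    intro k
    induction k with
    | zero => simp [comp_zero]
    | succ k ih =>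
      rw [Finset.sum_range_succ, ih, comp_succ, map_sub]
      have : X.EN (k + 1) (X.E k (y : V × U)) = X.EN k (y : V × U) :=
        Subtype.ext (X.E_succ_E k _)
      rw [this]
      abel
  rw [h1, h2]
  exact Subtype.ext hm

theorem sig_injective : Function.Injective X.sig := by
  intro x y h
  rw [← X.proj_sig x, h, X.proj_sig]

/-- The uniserial summands. -/
noncomputable def Us : ℕ × Bool → Submodule R (ℕ →₀ (V × U))
  | (n, true) => LinearMap.range ((Finsupp.lsingle n).comp (LinearMap.inl R V U))
  | (n, false) => LinearMap.range ((Finsupp.lsingle n).comp (LinearMap.inr R V U))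

/-- Submodules of the range of an injective map from a uniserial module are comparable. -/
theorem range_uniserial {V' M : Type} [AddCommGroup V'] [Module R V'] [AddCommGroup M] [Module R M]
    (h : ∀ A B : Submodule R V', A ≤ B ∨ B ≤ A) (φ : V' →ₗ[R] M)
    (A B : Submodule R M) (hA : A ≤ LinearMap.range φ) (hB : B ≤ LinearMap.range φ) :
    A ≤ B ∨ B ≤ A := by
  rw [← Submodule.map_comap_eq_self hA, ← Submodule.map_comap_eq_self hB]
  rcases h (A.comap φ) (B.comap φ) with h | h
  · exact Or.inl (Submodule.map_mono h)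
  · exact Or.inr (Submodule.map_mono h)

theorem Us_uniserial (i : ℕ × Bool) (A B : Submodule R (ℕ →₀ (V × U)))
    (hA : A ≤ Us (R := R) (V := V) (U := U) i) (hB : B ≤ Us (R := R) (V := V) (U := U) i)
    (X : Data R V U) : A ≤ B ∨ B ≤ A := by
  rcases i with ⟨n, _ | _⟩
  · exact range_uniserial X.hU _ A B hA hB
  · exact range_uniserial X.hV _ A B hA hB

theorem Us_indep : iSupIndep (Us (R := R) (V := V) (U := U)) := by
  intro i
  rw [Submodule.disjoint_def]
  rcases i with ⟨n, _ | _⟩
  · intro x hx hx'
    have hle : (⨆ j, ⨆ (_ : j ≠ (n, false)), Us (R := R) (V := V) (U := U) j) ≤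
        LinearMap.ker ((LinearMap.snd R V U).comp (Finsupp.lapply n)) := by
      refine iSup₂_le ?_
      rintro ⟨m, _ | _⟩ hj
      · rintro _ ⟨u, rfl⟩
        have : m ≠ n := fun h => hj (by rw [h])
        rw [LinearMap.mem_ker]
        simp [Finsupp.single_eq_of_ne this.symm]
      · rintro _ ⟨v, rfl⟩
        rw [LinearMap.mem_ker]
        by_cases h : m = n
        · subst h
          simp
        · simp [Finsupp.single_eq_of_ne (Ne.symm h)]
    have h2 := hle hx'
    obtain ⟨u, rfl⟩ := hx
    rw [LinearMap.mem_ker] at h2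
    have h3 : u = 0 := by simpa using h2
    rw [h3, map_zero]
  · intro x hx hx'
    have hle : (⨆ j, ⨆ (_ : j ≠ (n, true)), Us (R := R) (V := V) (U := U) j) ≤
        LinearMap.ker ((LinearMap.fst R V U).comp (Finsupp.lapply n)) := by
      refine iSup₂_le ?_
      rintro ⟨m, _ | _⟩ hj
      · rintro _ ⟨u, rfl⟩
        rw [LinearMap.mem_ker]
        by_cases h : m = n
        · subst h
          simp
        · simp [Finsupp.single_eq_of_ne (Ne.symm h)]
      · rintro _ ⟨v, rfl⟩
        have : m ≠ n := fun h => hj (by rw [h])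
        rw [LinearMap.mem_ker]
        simp [Finsupp.single_eq_of_ne this.symm]
    have h2 := hle hx'
    obtain ⟨u, rfl⟩ := hx
    rw [LinearMap.mem_ker] at h2
    have h3 : u = 0 := by simpa using h2
    rw [h3, map_zero]

theorem Us_iSup : (⨆ i, Us (R := R) (V := V) (U := U) i) = ⊤ := by
  rw [eq_top_iff]
  intro x _
  induction x using Finsupp.induction_linear with
  | zero => exact Submodule.zero_mem _
  | add x y hx hy => exact Submodule.add_mem _ (hx trivial) (hy trivial)
  | single n p =>
    have e1 : (Finsupp.single n p : ℕ →₀ (V × U)) =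
        Finsupp.single n (LinearMap.inl R V U p.1) + Finsupp.single n (LinearMap.inr R V U p.2) := by
      rw [← Finsupp.single_add, LinearMap.inl_apply, LinearMap.inr_apply, Prod.mk_add_mk, add_zero,
        zero_add]
    rw [e1]
    refine Submodule.add_mem _ ?_ ?_
    · exact Submodule.mem_iSup_of_mem (n, true) ⟨p.1, rfl⟩
    · exact Submodule.mem_iSup_of_mem (n, false) ⟨p.2, rfl⟩

theorem isCompl_range_ker : IsCompl (LinearMap.range X.sig) (LinearMap.ker X.proj) := by
  rw [isCompl_iff]
  constructor
  · rw [Submodule.disjoint_def]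
    rintro _ ⟨y, rfl⟩ h
    rw [LinearMap.mem_ker, proj_sig] at h
    rw [h, map_zero]
  · rw [codisjoint_iff, eq_top_iff]
    intro x _
    have e1 : x = X.sig (X.proj x) + (x - X.sig (X.proj x)) := by abel
    rw [e1]
    refine Submodule.add_mem_sup ⟨_, rfl⟩ ?_
    rw [LinearMap.mem_ker, map_sub, proj_sig, sub_self]

theorem range_indecomposable (A B : Submodule R (ℕ →₀ (V × U)))
    (h1 : A ⊔ B = LinearMap.range X.sig) (h2 : A ⊓ B = ⊥) : A = ⊥ ∨ B = ⊥ := by
  have hA : A ≤ LinearMap.range X.sig := h1 ▸ le_sup_left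
  have hB : B ≤ LinearMap.range X.sig := h1 ▸ le_sup_right
  have hc : IsCompl (A.comap X.sig) (B.comap X.sig) := by
    rw [isCompl_iff]
    constructor
    · rw [Submodule.disjoint_def]
      intro x hx hy
      have : X.sig x ∈ A ⊓ B := ⟨hx, hy⟩
      rw [h2, Submodule.mem_bot] at this
      exact X.sig_injective (by rw [this, map_zero])
    · rw [codisjoint_iff, eq_top_iff]
      intro x _
      have : X.sig x ∈ A ⊔ B := by rw [h1]; exact ⟨x, rfl⟩
      obtain ⟨a, ha, b, hb, hab⟩ := Submodule.mem_sup.1 this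
      obtain ⟨a', rfl⟩ := hA ha
      obtain ⟨b', rfl⟩ := hB hb
      rw [← map_add] at hab
      rw [← X.sig_injective hab]
      exact Submodule.add_mem_sup ha hb
  set e : X.N →ₗ[R] X.N := (A.comap X.sig).subtype.comp
    (Submodule.projectionOnto _ _ hc) with he
  have hidem : ∀ y, e (e y) = e y := by
    intro y
    have := Submodule.projectionOnto_apply_left hc ((Submodule.projectionOnto _ _ hc) y)
    exact congrArg Subtype.val this
  rcases X.idem_trivial e hidem with h | h
  · right
    rw [eq_bot_iff]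
    intro x hx
    obtain ⟨y, rfl⟩ := hB hx
    have h3 : e y = 0 := by
      have : (Submodule.projectionOnto _ _ hc) y = 0 :=
        (Submodule.projectionOnto_apply_eq_zero_iff hc).2 hx
      change ((Submodule.projectionOnto _ _ hc) y : X.N) = 0
      rw [this]
      rfl
    rw [Submodule.mem_bot, ← h y, h3, map_zero]
  · left
    rw [eq_bot_iff]
    intro x hx
    obtain ⟨y, rfl⟩ := hA hx
    have h3 : e y = y := by
      have := Submodule.projectionOnto_apply_left hc ⟨y, hx⟩
      change ((Submodule.projectionOnto _ _ hc) y : X.N) = y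
      rw [this]
    rw [Submodule.mem_bot, ← h3, h y, map_zero]

/-- The counterexample over the ring `R`. -/
theorem counterexample (X : Data R V U) :
    ∃ (M : Type) (_ : AddCommGroup M) (_ : Module R M),
      (∃ (ι : Type) (U : ι → Submodule R M),
          iSupIndep U ∧ (⨆ i, U i) = ⊤ ∧
          ∀ i, ∀ A B : Submodule R M, A ≤ U i → B ≤ U i → A ≤ B ∨ B ≤ A) ∧
      ∃ N : Submodule R M,
        (∃ N' : Submodule R M, IsCompl N N') ∧
        N ≠ ⊥ ∧
        (∀ A B : Submodule R M, A ⊔ B = N → A ⊓ B = ⊥ → A = ⊥ ∨ B = ⊥) ∧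
        ¬ ∀ A B : Submodule R M, A ≤ N → B ≤ N → A ≤ B ∨ B ≤ A := by
  refine ⟨ℕ →₀ (V × U), inferInstance, inferInstance,
    ⟨ℕ × Bool, Us, Us_indep, Us_iSup, fun i A B hA hB => Us_uniserial i A B hA hB X⟩,
    LinearMap.range X.sig, ⟨_, X.isCompl_range_ker⟩, ?_, X.range_indecomposable, ?_⟩
  · intro h
    have h1 : X.sig (X.iota X.w0) = 0 := by
      have : X.sig (X.iota X.w0) ∈ LinearMap.range X.sig := ⟨_, rfl⟩
      rwa [h, Submodule.mem_bot] at this
    have h2 : X.iota X.w0 = 0 := X.sig_injective (by rw [h1, map_zero])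
    have h3 : X.w0 = 0 := X.iota_injective (by rw [h2, map_zero])
    exact X.hw0 (by rw [h3, smul_zero])
  · intro h
    have hw : X.w0 ≠ 0 := fun h3 => X.hw0 (by rw [h3, smul_zero])
    rcases h (LinearMap.range (X.sig.comp ((X.EN 0).comp (LinearMap.inl R V U))))
      (LinearMap.range (X.sig.comp ((X.EN 0).comp (LinearMap.inr R V U))))
      (LinearMap.range_comp_le_range _ _) (LinearMap.range_comp_le_range _ _) with h1 | h1
    · obtain ⟨u, hu⟩ := h1 ⟨X.w0, rfl⟩
      have := X.EN_zero_injective (X.sig_injective hu)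
      exact hw (congrArg Prod.fst this).symm
    · obtain ⟨v, hv⟩ := h1 ⟨X.u0, rfl⟩
      have := X.EN_zero_injective (X.sig_injective hv)
      exact X.hu0 (congrArg Prod.snd this).symm

end Data

end Helper7_Serial
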