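import Pool.Agent.Helper7_Serial.Elems
import Pool.Agent.Helper7_Serial.Summand

/-!
# Realization of the data over a commutant ring
-/

set_option autoImplicit false

namespace Helper7_Serial

namespace TropD

variable {D : Type} [DivisionRing D] (T : TropD D)

/-- the module `V = L 24 / L 0` -/
abbrev V : Type := T.I 0 24

/-- the module `U = L 12 / L (-2)` -/
abbrev U : Type := T.I (-2) 12

/-- `c` on `V` -/
noncomputable def cV : T.V →+ T.V := T.lmul T.c T.op_c_24 (T.op_mono T.op_c_0 le_rfl (by norm_num))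

/-- `f` on `V` -/
noncomputable def fV : T.V →+ T.V :=
  T.lmul T.f (T.op_mono T.op_f_24 le_rfl (by norm_num)) T.op_f_0

/-- `a` on `U` -/
noncomputable def aU : T.U →+ T.U :=
  T.lmul (T.au : D) (T.op_unit (by rw [act_au]; norm_num)) (T.op_unit (by rw [act_au]; norm_num))

/-- `d` on `U` -/
noncomputable def dU : T.U →+ T.U :=
  T.lmul (T.du : D) (T.op_unit (by rw [act_du]; norm_num)) (T.op_unit (by rw [act_du]; norm_num))

/-- `g : V → U` -/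
noncomputable def gVU : T.V →+ T.U :=
  T.lmul T.g (T.op_mono T.op_g_24 le_rfl (by norm_num)) (T.op_mono T.op_g_0 le_rfl (by norm_num))

/-- `s : U → V`, multiplication by `1` -/
noncomputable def sUV : T.U →+ T.V := T.lmul 1 (T.op_one (by norm_num)) (T.op_one (by norm_num))

/-- multiplication by `r` on `V` -/
noncomputable def rV : T.V →+ T.V := T.lmul T.r (T.op_r _ _ (by norm_num)) (T.op_r _ _ (by norm_num))

/-- The commutant ring. -/
def Rg : Subring (AddMonoid.End T.V × AddMonoid.End T.U) where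
  carrier := {ρ | (∀ v, T.cV (ρ.1 v) = ρ.1 (T.cV v)) ∧ (∀ v, T.fV (ρ.1 v) = ρ.1 (T.fV v)) ∧
    (∀ u, T.aU (ρ.2 u) = ρ.2 (T.aU u)) ∧ (∀ u, T.dU (ρ.2 u) = ρ.2 (T.dU u)) ∧
    (∀ v, T.gVU (ρ.1 v) = ρ.2 (T.gVU v)) ∧ (∀ u, T.sUV (ρ.2 u) = ρ.1 (T.sUV u))}
  mul_mem' := by
    rintro ρ σ ⟨h1, h2, h3, h4, h5, h6⟩ ⟨k1, k2, k3, k4, k5, k6⟩
    refine ⟨fun v => ?_, fun v => ?_, fun v => ?_, fun v => ?_, fun v => ?_, fun v => ?_⟩
    · change T.cV (ρ.1 (σ.1 v)) = ρ.1 (σ.1 (T.cV v))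
      rw [h1, k1]
    · change T.fV (ρ.1 (σ.1 v)) = ρ.1 (σ.1 (T.fV v))
      rw [h2, k2]
    · change T.aU (ρ.2 (σ.2 v)) = ρ.2 (σ.2 (T.aU v))
      rw [h3, k3]
    · change T.dU (ρ.2 (σ.2 v)) = ρ.2 (σ.2 (T.dU v))
      rw [h4, k4]
    · change T.gVU (ρ.1 (σ.1 v)) = ρ.2 (σ.2 (T.gVU v))
      rw [h5, k5]
    · change T.sUV (ρ.2 (σ.2 v)) = ρ.1 (σ.1 (T.sUV v))
      rw [h6, k6]
  one_mem' := ⟨fun _ => rfl, fun _ => rfl, fun _ => rfl, fun _ => rfl, fun _ => rfl, fun _ => rfl⟩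
  add_mem' := by
    rintro ρ σ ⟨h1, h2, h3, h4, h5, h6⟩ ⟨k1, k2, k3, k4, k5, k6⟩
    refine ⟨fun v => ?_, fun v => ?_, fun v => ?_, fun v => ?_, fun v => ?_, fun v => ?_⟩
    · change T.cV (ρ.1 v + σ.1 v) = ρ.1 (T.cV v) + σ.1 (T.cV v)
      rw [map_add, h1, k1]
    · change T.fV (ρ.1 v + σ.1 v) = ρ.1 (T.fV v) + σ.1 (T.fV v)
      rw [map_add, h2, k2]
    · change T.aU (ρ.2 v + σ.2 v) = ρ.2 (T.aU v) + σ.2 (T.aU v)
      rw [map_add, h3, k3]
    · change T.dU (ρ.2 v + σ.2 v) = ρ.2 (T.dU v) + σ.2 (T.dU v)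
      rw [map_add, h4, k4]
    · change T.gVU (ρ.1 v + σ.1 v) = ρ.2 (T.gVU v) + σ.2 (T.gVU v)
      rw [map_add, h5, k5]
    · change T.sUV (ρ.2 v + σ.2 v) = ρ.1 (T.sUV v) + σ.1 (T.sUV v)
      rw [map_add, h6, k6]
  zero_mem' := ⟨fun _ => map_zero _, fun _ => map_zero _, fun _ => map_zero _, fun _ => map_zero _,
    fun _ => map_zero _, fun _ => map_zero _⟩
  neg_mem' := by
    rintro ρ ⟨h1, h2, h3, h4, h5, h6⟩
    refine ⟨fun v => ?_, fun v => ?_, fun v => ?_, fun v => ?_, fun v => ?_, fun v => ?_⟩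
    · change T.cV (-ρ.1 v) = -ρ.1 (T.cV v)
      rw [map_neg, h1]
    · change T.fV (-ρ.1 v) = -ρ.1 (T.fV v)
      rw [map_neg, h2]
    · change T.aU (-ρ.2 v) = -ρ.2 (T.aU v)
      rw [map_neg, h3]
    · change T.dU (-ρ.2 v) = -ρ.2 (T.dU v)
      rw [map_neg, h4]
    · change T.gVU (-ρ.1 v) = -ρ.2 (T.gVU v)
      rw [map_neg, h5]
    · change T.sUV (-ρ.2 v) = -ρ.1 (T.sUV v)
      rw [map_neg, h6]

instance instV : Module T.Rg T.V :=
  Module.compHom T.V ((RingHom.fst (AddMonoid.End T.V) (AddMonoid.End T.U)).comp T.Rg.subtype)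

instance instU : Module T.Rg T.U :=
  Module.compHom T.U ((RingHom.snd (AddMonoid.End T.V) (AddMonoid.End T.U)).comp T.Rg.subtype)

theorem smul_V (ρ : T.Rg) (v : T.V) : ρ • v = ρ.1.1 v := rfl

theorem smul_U (ρ : T.Rg) (u : T.U) : ρ • u = ρ.1.2 u := rfl

/-- right multiplications as elements of the ring -/
noncomputable def rr (z : D) (hz : z ∈ T.L 0) : T.Rg :=
  ⟨((T.rmul z hz 0 24 : T.V →+ T.V), (T.rmul z hz (-2) 12 : T.U →+ T.U)),
    ⟨fun v => T.lmul_rmul _ _ hz v, fun v => T.lmul_rmul _ _ hz v, fun v => T.lmul_rmul _ _ hz v,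
      fun v => T.lmul_rmul _ _ hz v, fun v => T.lmul_rmul _ _ hz v, fun v => T.lmul_rmul _ _ hz v⟩⟩

theorem rr_V (z : D) (hz : z ∈ T.L 0) {y : D} (hy : y ∈ T.L 24) :
    T.rr z hz • (T.cls 0 24 y hy : T.V) = T.cls 0 24 (y * z) (T.mul_mem_L_right hy hz) := rfl

theorem rr_U (z : D) (hz : z ∈ T.L 0) {y : D} (hy : y ∈ T.L 12) :
    T.rr z hz • (T.cls (-2) 12 y hy : T.U) = T.cls (-2) 12 (y * z) (T.mul_mem_L_right hy hz) := rfl

/-- The element `r₀`: multiplication by `r` on `V` and `0` on `U`. -/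
noncomputable def r0 : T.Rg :=
  ⟨((T.rV : T.V →+ T.V), 0), by
    refine ⟨fun v => ?_, fun v => ?_, fun v => ?_, fun v => ?_, fun v => ?_, fun v => ?_⟩
    · obtain ⟨y, hy, rfl⟩ := T.cls_surj v
      refine (T.cls_eq).2 ?_
      have : T.c * (T.r * y) - T.r * (T.c * y) = (T.c * T.r - T.r * T.c) * y := by
        rw [sub_mul, mul_assoc, mul_assoc]
      change T.c * (T.r * y) - T.r * (T.c * y) ∈ T.L 0
      rw [this]
      exact T.mul_mem_L T.op_comm_c hy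
    · obtain ⟨y, hy, rfl⟩ := T.cls_surj v
      refine (T.cls_eq).2 ?_
      have : T.f * (T.r * y) - T.r * (T.f * y) = (T.f * T.r - T.r * T.f) * y := by
        rw [sub_mul, mul_assoc, mul_assoc]
      change T.f * (T.r * y) - T.r * (T.f * y) ∈ T.L 0
      rw [this]
      exact T.mul_mem_L T.op_comm_f hy
    · exact map_zero _
    · exact map_zero _
    · obtain ⟨y, hy, rfl⟩ := T.cls_surj v
      change T.cls _ _ _ _ = 0
      rw [cls_eq_zero]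
      exact T.mul_mem_L (T.op_mono T.op_g_8 le_rfl (by norm_num))
        (T.mul_mem_L (T.op_r 24 8 (by norm_num)) hy)
    · obtain ⟨y, hy, rfl⟩ := T.cls_surj v
      change T.sUV 0 = T.cls _ _ _ _
      rw [map_zero, eq_comm, cls_eq_zero]
      exact T.mul_mem_L (T.op_r 12 0 (by norm_num)) (T.mul_mem_L (T.op_one le_rfl) hy)⟩

theorem r0_V {y : D} (hy : y ∈ T.L 24) :
    T.r0 • (T.cls 0 24 y hy : T.V) =
      T.cls 0 24 (T.r * y) (T.mul_mem_L (T.op_r _ _ (by norm_num)) hy) := rfl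

theorem r0_U (u : T.U) : T.r0 • u = 0 := rfl

/-- the linear maps -/
noncomputable def cL : T.V →ₗ[T.Rg] T.V :=
  { T.cV with map_smul' := fun ρ v => ρ.2.1 v }

noncomputable def fL : T.V →ₗ[T.Rg] T.V :=
  { T.fV with map_smul' := fun ρ v => ρ.2.2.1 v }

noncomputable def aL : T.U →ₗ[T.Rg] T.U :=
  { T.aU with map_smul' := fun ρ v => ρ.2.2.2.1 v }

noncomputable def dL : T.U →ₗ[T.Rg] T.U :=
  { T.dU with map_smul' := fun ρ v => ρ.2.2.2.2.1 v }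

noncomputable def gL : T.V →ₗ[T.Rg] T.U :=
  { T.gVU with map_smul' := fun ρ v => ρ.2.2.2.2.2.1 v }

noncomputable def sL : T.U →ₗ[T.Rg] T.V :=
  { T.sUV with map_smul' := fun ρ v => ρ.2.2.2.2.2.2 v }

theorem uniserial_of_comparable {R V : Type} [Ring R] [AddCommGroup V] [Module R V]
    (h : ∀ x y : V, (∃ r : R, x = r • y) ∨ (∃ r : R, y = r • x)) (A B : Submodule R V) :
    A ≤ B ∨ B ≤ A := by
  by_contra hcon
  push Not at hcon
  obtain ⟨h1, h2⟩ := hcon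
  obtain ⟨x, hxA, hxB⟩ := Set.not_subset.1 h1
  obtain ⟨y, hyB, hyA⟩ := Set.not_subset.1 h2
  rcases h x y with ⟨r, hr⟩ | ⟨r, hr⟩
  · exact hxB (by rw [SetLike.mem_coe, hr]; exact B.smul_mem r hyB)
  · exact hyA (by rw [SetLike.mem_coe, hr]; exact A.smul_mem r hxA)

theorem comparable_V (v v' : T.V) : (∃ r : T.Rg, v = r • v') ∨ (∃ r : T.Rg, v' = r • v) := by
  obtain ⟨y, hy, rfl⟩ := T.cls_surj v
  obtain ⟨z, hz, rfl⟩ := T.cls_surj v'
  rcases T.comparable y z with ⟨ρ, hρ, h⟩ | ⟨ρ, hρ, h⟩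
  · right
    refine ⟨T.rr ρ hρ, ?_⟩
    rw [rr_V]
    congr 1
  · left
    refine ⟨T.rr ρ hρ, ?_⟩
    rw [rr_V]
    congr 1

theorem comparable_U (v v' : T.U) : (∃ r : T.Rg, v = r • v') ∨ (∃ r : T.Rg, v' = r • v) := by
  obtain ⟨y, hy, rfl⟩ := T.cls_surj v
  obtain ⟨z, hz, rfl⟩ := T.cls_surj v'
  rcases T.comparable y z with ⟨ρ, hρ, h⟩ | ⟨ρ, hρ, h⟩
  · right
    refine ⟨T.rr ρ hρ, ?_⟩
    rw [rr_U]
    congr 1
  · left
    refine ⟨T.rr ρ hρ, ?_⟩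
    rw [rr_U]
    congr 1

/-- the element `x ^ n` of level `n` -/
theorem xpow_mem (n : ℤ) {s : ℚ} (h : (n : ℚ) ≤ s) : ((T.x ^ n : Dˣ) : D) ∈ T.L s :=
  T.op_unit (by rw [act_zpow]; simpa using h)

theorem xpow_notMem (n : ℤ) {s : ℚ} (h : s < (n : ℚ)) : ((T.x ^ n : Dˣ) : D) ∉ T.L s := by
  intro h1
  have := h1 (T.x ^ n) rfl
  rw [act_zpow, zero_add] at this
  exact absurd h (not_lt.2 this)

/-- generator of `V` -/
noncomputable def v0 : T.V := T.cls 0 24 ((T.x ^ (24 : ℤ) : Dˣ) : D) (T.xpow_mem 24 (by norm_num))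

theorem v0_gen (v : T.V) : ∃ r : T.Rg, v = r • T.v0 := by
  obtain ⟨y, hy, rfl⟩ := T.cls_surj v
  obtain ⟨ρ, hρ, h⟩ := T.exists_right (y := T.x ^ (24 : ℤ)) (z := y)
    (by rw [act_zpow]; norm_num; exact hy)
  refine ⟨T.rr ρ hρ, ?_⟩
  rw [v0, rr_V]
  congr 1

theorem r0_prop (v : T.V) (hv : T.r0 • v ≠ 0) (v' : T.V) : ∃ ρ : T.Rg, T.r0 • v' = ρ • v := by
  obtain ⟨y, hy, rfl⟩ := T.cls_surj v
  obtain ⟨z, hz, rfl⟩ := T.cls_surj v'
  rw [r0_V, ne_eq, cls_eq_zero] at hv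
  have hy0 : y ≠ 0 := by
    rintro rfl
    apply hv
    rw [mul_zero]
    exact zero_mem _
  have hlev : 16 < T.act (Units.mk0 y hy0) 0 := by
    by_contra hcon
    apply hv
    have h1 : T.Op y 0 16 := by
      have := T.op_unit (w := Units.mk0 y hy0) (not_lt.1 hcon)
      rwa [Units.val_mk0] at this
    exact T.op_mul (T.op_r 16 0 (by norm_num)) h1
  obtain ⟨ρ, hρ, h⟩ := T.exists_right (y := Units.mk0 y hy0) (z := T.r * z)
    (T.op_mono (T.op_mul (T.op_r 24 8 (by norm_num)) hz) le_rfl (by linarith))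
  refine ⟨T.rr ρ hρ, ?_⟩
  rw [r0_V, rr_V]
  congr 1

/-- The map `W`. -/
noncomputable def Wlin : (T.V × T.U) →ₗ[T.Rg] (T.V × T.U) :=
  ((T.cL + T.fL).comp (LinearMap.fst T.Rg T.V T.U) + T.sL.comp (LinearMap.snd T.Rg T.V T.U)).prod
    (T.gL.comp (LinearMap.fst T.Rg T.V T.U) +
      (T.aL + T.dL).comp (LinearMap.snd T.Rg T.V T.U))

theorem Wlin_fst (v : T.V) (u : T.U) : (T.Wlin (v, u)).1 = T.cL v + T.fL v + T.sL u := rfl

theorem Wlin_snd (v : T.V) (u : T.U) : (T.Wlin (v, u)).2 = T.gL v + (T.aL u + T.dL u) := rfl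

theorem Wlin_cls_fst {y z : D} (hy : y ∈ T.L 24) (hz : z ∈ T.L 12) :
    ∃ h, (T.Wlin (T.cls 0 24 y hy, T.cls (-2) 12 z hz)).1 =
      T.cls 0 24 ((T.w : D) * y + z) h := by
  have h : (T.w : D) * y + z ∈ T.L 24 :=
    add_mem (T.mul_mem_L (T.op_unit (T.act_w_24.le)) hy) (T.L_mono (by norm_num) hz)
  refine ⟨h, ?_⟩
  rw [Wlin_fst]
  change T.cls _ _ (T.c * y) _ + T.cls _ _ (T.f * y) _ + T.cls _ _ (1 * z) _ = _
  rw [cls_add, cls_add, cls_eq, w_eq]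
  have : T.c * y + T.f * y + 1 * z - ((T.c + T.f) * y + z) = 0 := by
    rw [one_mul, add_mul, sub_self]
  rw [this]
  exact zero_mem _

theorem Wlin_cls_snd {y z : D} (hy : y ∈ T.L 24) (hz : z ∈ T.L 12) :
    ∃ h, (T.Wlin (T.cls 0 24 y hy, T.cls (-2) 12 z hz)).2 =
      T.cls (-2) 12 (T.g * y + ((T.au : D) + T.du) * z) h := by
  have h : T.g * y + ((T.au : D) + T.du) * z ∈ T.L 12 := by
    refine add_mem (T.mul_mem_L (T.op_mono T.op_g_24 le_rfl (by norm_num)) hy) ?_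
    rw [add_mul]
    exact add_mem (T.mul_mem_L (T.op_unit (by rw [act_au]; norm_num)) hz)
      (T.mul_mem_L (T.op_unit (by rw [act_du]; norm_num)) hz)
  refine ⟨h, ?_⟩
  rw [Wlin_snd]
  change T.cls _ _ (T.g * y) _ + (T.cls _ _ ((T.au : D) * z) _ + T.cls _ _ ((T.du : D) * z) _) = _
  rw [cls_add, cls_add, cls_eq]
  have : T.g * y + ((T.au : D) * z + (T.du : D) * z) -
      (T.g * y + ((T.au : D) + (T.du : D)) * z) = 0 := by
    rw [add_mul, sub_self]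
  rw [this]
  exact zero_mem _

theorem Wlin_injective : Function.Injective T.Wlin := by
  rw [injective_iff_map_eq_zero]
  rintro ⟨v, u⟩ h
  obtain ⟨y, hy, rfl⟩ := T.cls_surj v
  obtain ⟨z, hz, rfl⟩ := T.cls_surj u
  obtain ⟨h1, e1⟩ := T.Wlin_cls_fst hy hz
  obtain ⟨h2, e2⟩ := T.Wlin_cls_snd hy hz
  rw [h] at e1 e2
  have k1 : (T.w : D) * y + z ∈ T.L 0 := (T.cls_eq_zero).1 e1.symm
  have k2 : T.g * y + ((T.au : D) + T.du) * z ∈ T.L (-2) := (T.cls_eq_zero).1 e2.symm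
  obtain ⟨δ, hδ, hδ2, hδ12⟩ := T.exists_delta
  have hi0 : T.act T.w⁻¹ 0 = 0 := T.act_inv_eq T.act_w_0
  have k3 : T.g * (((T.w⁻¹ : Dˣ) : D) * ((T.w : D) * y + z)) ∈ T.L (-2) :=
    T.mul_mem_L (T.op_mono T.op_g_0 le_rfl (by norm_num)) (T.mul_mem_L (T.op_unit hi0.le) k1)
  have k4 : (δ : D) * z ∈ T.L (-2) := by
    have : (δ : D) * z = T.g * y + ((T.au : D) + T.du) * z -
        T.g * (((T.w⁻¹ : Dˣ) : D) * ((T.w : D) * y + z)) := by
      rw [hδ, sub_mul, mul_add ((T.w⁻¹ : Dˣ) : D), Units.inv_mul_cancel_left, mul_add, mul_assoc]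
      abel
    rw [this]
    exact sub_mem k2 k3
  have k5 : z ∈ T.L (-2) := by
    have := T.mul_mem_L (z := ((δ⁻¹ : Dˣ) : D)) (s := -2) (r := -2)
      (T.op_unit (T.act_inv_eq hδ2).le) k4
    rwa [Units.inv_mul_cancel_left] at this
  have k6 : y ∈ T.L 0 := by
    have k7 : (T.w : D) * y ∈ T.L 0 := by
      have := sub_mem k1 (T.L_mono (by norm_num : (-2 : ℚ) ≤ 0) k5)
      rwa [add_sub_cancel_right] at this
    have := T.mul_mem_L (z := ((T.w⁻¹ : Dˣ) : D)) (s := 0) (r := 0) (T.op_unit hi0.le) k7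
    rwa [Units.inv_mul_cancel_left] at this
  exact Prod.ext ((T.cls_eq_zero).2 k6) ((T.cls_eq_zero).2 k5)

theorem Wlin_surjective : Function.Surjective T.Wlin := by
  rintro ⟨v, u⟩
  obtain ⟨y', hy', rfl⟩ := T.cls_surj v
  obtain ⟨z', hz', rfl⟩ := T.cls_surj u
  obtain ⟨δ, hδ, hδ2, hδ12⟩ := T.exists_delta
  have hi24 : T.act T.w⁻¹ 24 = 24 := T.act_inv_eq T.act_w_24
  have hiy : ((T.w⁻¹ : Dˣ) : D) * y' ∈ T.L 24 := T.mul_mem_L (T.op_unit hi24.le) hy'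
  set z : D := ((δ⁻¹ : Dˣ) : D) * (z' - T.g * (((T.w⁻¹ : Dˣ) : D) * y')) with hz
  have hzL : z ∈ T.L 12 :=
    T.mul_mem_L (T.op_unit (T.act_inv_eq hδ12).le)
      (sub_mem hz' (T.mul_mem_L (T.op_mono T.op_g_24 le_rfl (by norm_num)) hiy))
  set y : D := ((T.w⁻¹ : Dˣ) : D) * (y' - z) with hy
  have hyL : y ∈ T.L 24 :=
    T.mul_mem_L (T.op_unit hi24.le) (sub_mem hy' (T.L_mono (by norm_num) hzL))
  refine ⟨(T.cls 0 24 y hyL, T.cls (-2) 12 z hzL), ?_⟩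
  obtain ⟨h1, e1⟩ := T.Wlin_cls_fst hyL hzL
  obtain ⟨h2, e2⟩ := T.Wlin_cls_snd hyL hzL
  refine Prod.ext ?_ ?_
  · rw [e1, cls_eq]
    have : (T.w : D) * y + z - y' = 0 := by
      rw [hy, Units.mul_inv_cancel_left]
      abel
    rw [this]
    exact zero_mem _
  · rw [e2, cls_eq]
    have h3 : (δ : D) * z = z' - T.g * (((T.w⁻¹ : Dˣ) : D) * y') := by
      rw [hz, Units.mul_inv_cancel_left]
    have h4 : T.g * y + ((T.au : D) + T.du) * z =
        T.g * (((T.w⁻¹ : Dˣ) : D) * y') + (δ : D) * z := by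
      rw [hδ, hy, sub_mul, mul_sub, mul_sub, mul_assoc]
      abel
    have : T.g * y + ((T.au : D) + T.du) * z - z' = 0 := by
      rw [h4, h3]
      abel
    rw [this]
    exact zero_mem _

/-- The data of the counterexample. -/
noncomputable def data : Data T.Rg T.V T.U where
  hV := uniserial_of_comparable T.comparable_V
  hU := uniserial_of_comparable T.comparable_U
  v0 := T.v0
  hv0 := T.v0_gen
  u0 := T.cls (-2) 12 ((T.x ^ (12 : ℤ) : Dˣ) : D) (T.xpow_mem 12 (by norm_num))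
  hu0 := by
    rw [ne_eq, cls_eq_zero]
    exact T.xpow_notMem 12 (by norm_num)
  r0 := T.r0
  hr0U := T.r0_U
  w0 := T.v0
  hw0 := by
    rw [v0, r0_V, ne_eq, cls_eq_zero]
    have : T.r * ((T.x ^ (24 : ℤ) : Dˣ) : D) = ((T.x ^ (8 : ℤ) : Dˣ) : D) := by
      rw [r, ← Units.val_mul, ← zpow_add]
      norm_num
    rw [this]
    exact T.xpow_notMem 8 (by norm_num)
  hr0 := T.r0_prop
  c := T.cL
  f := T.fL
  a := T.aL
  d := T.dL
  g := T.gL
  s := T.sL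
  hf := by
    rw [injective_iff_map_eq_zero]
    intro v h
    obtain ⟨y, hy, rfl⟩ := T.cls_surj v
    obtain ⟨fu, hfu, hfu0⟩ := T.exists_fu
    have h1 : T.f * y ∈ T.L 0 := (T.cls_eq_zero).1 h
    rw [cls_eq_zero]
    have := T.mul_mem_L (z := ((fu⁻¹ : Dˣ) : D)) (s := 0) (r := 0)
      (T.op_unit (T.act_inv_eq hfu0).le) h1
    rwa [← hfu, Units.inv_mul_cancel_left] at this
  hfs := by
    intro h
    obtain ⟨v, hv⟩ := h T.v0
    obtain ⟨y, hy, rfl⟩ := T.cls_surj v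
    have h1 : T.f * y - ((T.x ^ (24 : ℤ) : Dˣ) : D) ∈ T.L 0 := (T.cls_eq).1 hv
    have h2 : T.f * y ∈ T.L 17 := T.mul_mem_L T.op_f_24 hy
    have h3 := sub_mem h2 (T.L_mono (by norm_num : (0 : ℚ) ≤ 17) h1)
    rw [sub_sub_cancel] at h3
    exact T.xpow_notMem 24 (by norm_num) h3
  ha := by
    rw [injective_iff_map_eq_zero]
    intro v h
    obtain ⟨y, hy, rfl⟩ := T.cls_surj v
    have h1 : (T.au : D) * y ∈ T.L (-2) := (T.cls_eq_zero).1 h
    rw [cls_eq_zero]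
    have := T.mul_mem_L (z := ((T.au⁻¹ : Dˣ) : D)) (s := -2) (r := -2)
      (T.op_unit (T.act_inv_eq (by rw [act_au]; norm_num)).le) h1
    rwa [Units.inv_mul_cancel_left] at this
  h1 := by
    intro v
    obtain ⟨y, hy, rfl⟩ := T.cls_surj v
    change T.cls _ _ (T.c * (T.f * y)) _ + T.cls _ _ (1 * (T.g * y)) _ = 0
    rw [cls_add, cls_eq_zero]
    have : T.c * (T.f * y) + 1 * (T.g * y) = 0 := by
      rw [one_mul, g, neg_mul, mul_assoc, add_neg_cancel]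
    rw [this]
    exact zero_mem _
  h2 := by
    intro u
    obtain ⟨y, hy, rfl⟩ := T.cls_surj u
    change T.cls _ _ (1 * ((T.au : D) * y)) _ = 0
    rw [cls_eq_zero, one_mul]
    exact T.mul_mem_L (T.op_unit (by rw [act_au]; norm_num)) hy
  h3 := by
    intro v
    obtain ⟨y, hy, rfl⟩ := T.cls_surj v
    change T.cls _ _ ((T.du : D) * (T.g * y)) _ = 0
    rw [cls_eq_zero]
    exact T.mul_mem_L (T.op_unit (by rw [act_du]; norm_num)) (T.mul_mem_L T.op_g_24 hy)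
  h4 := by
    intro u
    obtain ⟨y, hy, rfl⟩ := T.cls_surj u
    change T.cls _ _ ((T.du : D) * ((T.au : D) * y)) _ = 0
    rw [cls_eq_zero]
    have k1 : (T.au : D) * y ∈ T.L 0 := T.mul_mem_L (T.op_unit (by rw [act_au]; norm_num)) hy
    exact T.mul_mem_L (T.op_unit (by rw [act_du]; norm_num)) k1
  W := LinearEquiv.ofBijective T.Wlin ⟨T.Wlin_injective, T.Wlin_surjective⟩
  hW1 := T.Wlin_fst
  hW2 := T.Wlin_snd

end TropD

end Helper7_Serial
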