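import Mathlib

/-!
# Division rings acting on the rational line

A division ring `D` whose unit group acts on `ℚ` by order automorphisms such that sums are
bounded by maxima.  We collect the elementary rules and the special element
`u = (t + t⁻¹)⁻¹`.
-/

set_option autoImplicit false

namespace Helper7_Serial

/-- A division ring acting on the rational line. -/
structure TropD (D : Type) [DivisionRing D] where
  x : Dˣ
  t : Dˣ
  act : Dˣ →* (ℚ ≃o ℚ)
  hx : ∀ s, act x s = s + 1
  ht : ∀ s, act t s = 8 * s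
  hadd : ∀ a b c : Dˣ, (a : D) + b = c → ∀ s, act c s ≤ max (act a s) (act b s)

namespace TropD

variable {D : Type} [DivisionRing D] (T : TropD D)

theorem act_mul (a b : Dˣ) (s : ℚ) : T.act (a * b) s = T.act a (T.act b s) := by
  rw [map_mul]; rfl

theorem act_one (s : ℚ) : T.act 1 s = s := by
  rw [map_one]; rfl

theorem act_inv (a : Dˣ) (s : ℚ) : T.act a⁻¹ (T.act a s) = s := by
  rw [← act_mul, inv_mul_cancel, act_one]

theorem act_inv' (a : Dˣ) (s : ℚ) : T.act a (T.act a⁻¹ s) = s := by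
  rw [← act_mul, mul_inv_cancel, act_one]

theorem act_inv_eq {a : Dˣ} {s r : ℚ} (h : T.act a s = r) : T.act a⁻¹ r = s := by
  rw [← h, act_inv]

theorem act_lt {a : Dˣ} {s r : ℚ} (h : s < r) : T.act a s < T.act a r := (T.act a).strictMono h

theorem act_le {a : Dˣ} {s r : ℚ} (h : s ≤ r) : T.act a s ≤ T.act a r := (T.act a).monotone h

theorem act_neg_one (s : ℚ) : T.act (-1) s = s := by
  have h : T.act (-1) (T.act (-1) s) = s := by
    rw [← act_mul, neg_mul_neg, one_mul, act_one]
  rcases lt_trichotomy (T.act (-1) s) s with h1 | h1 | h1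
  · have := T.act_lt (a := -1) h1
    rw [h] at this
    exact absurd (this.trans h1) (lt_irrefl _)
  · exact h1
  · have := T.act_lt (a := -1) h1
    rw [h] at this
    exact absurd (this.trans h1) (lt_irrefl _)

theorem act_neg (a : Dˣ) (s : ℚ) : T.act (-a) s = T.act a s := by
  have : -a = (-1) * a := by rw [neg_one_mul]
  rw [this, act_mul, act_neg_one]

/-- If the two summands have different levels the sum is a unit with the larger level. -/
theorem ultra_eq (a b : Dˣ) (s : ℚ) (h : T.act b s < T.act a s) :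
    ∃ c : Dˣ, (c : D) = a + b ∧ T.act c s = T.act a s := by
  have h0 : (a : D) + b ≠ 0 := by
    intro h0
    have h1 : b = -a := by
      apply Units.ext
      rw [Units.val_neg]
      exact (neg_eq_of_add_eq_zero_right h0).symm
    rw [h1, act_neg] at h
    exact lt_irrefl _ h
  refine ⟨Units.mk0 _ h0, rfl, le_antisymm ?_ ?_⟩
  · refine (T.hadd a b _ rfl s).trans ?_
    rw [max_eq_left h.le]
  · have h1 : ((Units.mk0 ((a : D) + b) h0 : Dˣ) : D) + ((-b : Dˣ) : D) = (a : D) := by
      rw [Units.val_mk0, Units.val_neg, add_neg_cancel_right]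
    have h2 := T.hadd _ _ _ h1 s
    rw [act_neg] at h2
    rcases le_max_iff.1 h2 with h3 | h3
    · exact h3
    · exact absurd h3 (not_le.2 h)

/-- `y` maps elements of level at most `s` to elements of level at most `r`. -/
def Op (y : D) (s r : ℚ) : Prop := ∀ w : Dˣ, (w : D) = y → T.act w s ≤ r

theorem op_zero (s r : ℚ) : T.Op 0 s r := fun w hw => absurd hw w.ne_zero

theorem op_unit {w : Dˣ} {s r : ℚ} (h : T.act w s ≤ r) : T.Op (w : D) s r := by
  intro w' hw'
  rw [Units.ext hw']
  exact h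

theorem op_one {s r : ℚ} (h : s ≤ r) : T.Op 1 s r := by
  have := T.op_unit (w := 1) (s := s) (r := r) (by rw [act_one]; exact h)
  rwa [Units.val_one] at this

theorem op_mono {y : D} {s s' r r' : ℚ} (h : T.Op y s r) (hs : s' ≤ s) (hr : r ≤ r') :
    T.Op y s' r' := fun w hw => ((T.act_le hs).trans (h w hw)).trans hr

theorem op_mul {y z : D} {s r q : ℚ} (hz : T.Op z r q) (hy : T.Op y s r) : T.Op (z * y) s q := by
  by_cases hz0 : z = 0
  · rw [hz0, zero_mul]; exact T.op_zero _ _
  by_cases hy0 : y = 0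
  · rw [hy0, mul_zero]; exact T.op_zero _ _
  have h : z * y = ((Units.mk0 z hz0 * Units.mk0 y hy0 : Dˣ) : D) := rfl
  rw [h]
  apply T.op_unit
  rw [act_mul]
  exact (T.act_le (hy (Units.mk0 y hy0) rfl)).trans (hz (Units.mk0 z hz0) rfl)

theorem op_add {y z : D} {s r : ℚ} (hy : T.Op y s r) (hz : T.Op z s r) : T.Op (y + z) s r := by
  intro w hw
  by_cases hz0 : z = 0
  · rw [hz0, add_zero] at hw
    exact hy w hw
  by_cases hy0 : y = 0
  · rw [hy0, zero_add] at hw
    exact hz w hw
  have h := T.hadd (Units.mk0 y hy0) (Units.mk0 z hz0) w (by rw [hw]; rfl) s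
  exact h.trans (max_le (hy _ rfl) (hz _ rfl))

theorem op_neg {y : D} {s r : ℚ} (hy : T.Op y s r) : T.Op (-y) s r := by
  intro w hw
  have := hy (-w) (by rw [Units.val_neg, hw, neg_neg])
  rwa [act_neg] at this

theorem op_sub {y z : D} {s r : ℚ} (hy : T.Op y s r) (hz : T.Op z s r) : T.Op (y - z) s r := by
  rw [sub_eq_add_neg]
  exact T.op_add hy (T.op_neg hz)

theorem act_zpow (n : ℤ) (s : ℚ) : T.act (T.x ^ n) s = s + n := by
  induction n using Int.induction_on generalizing s with
  | zero => rw [zpow_zero, act_one]; simp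
  | succ n ih =>
    rw [zpow_add_one, act_mul, T.hx, ih]
    push_cast
    ring
  | pred n ih =>
    have h : T.act T.x⁻¹ s = s - 1 := T.act_inv_eq (by rw [T.hx]; ring)
    rw [zpow_sub_one, act_mul, h, ih]
    push_cast
    ring

theorem act_t_inv (s : ℚ) : T.act T.t⁻¹ s = s / 8 := T.act_inv_eq (by rw [T.ht]; ring)

/-- The unit `t + t⁻¹`. -/
theorem exists_tau : ∃ τ : Dˣ, (τ : D) = (T.t : D) + ((T.t⁻¹ : Dˣ) : D) ∧
    (∀ s, 0 < s → T.act τ s = 8 * s) ∧ (∀ s, s < 0 → T.act τ s = s / 8) := by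
  obtain ⟨τ, hτ, _⟩ := T.ultra_eq T.t T.t⁻¹ 1 (by rw [T.ht, act_t_inv]; norm_num)
  refine ⟨τ, hτ, ?_, ?_⟩
  · intro s hs
    obtain ⟨τ', hτ', h⟩ := T.ultra_eq T.t T.t⁻¹ s (by rw [T.ht, act_t_inv]; linarith)
    rw [show τ = τ' from Units.ext (by rw [hτ, hτ']), h, T.ht]
  · intro s hs
    obtain ⟨τ', hτ', h⟩ := T.ultra_eq T.t⁻¹ T.t s (by rw [T.ht, act_t_inv]; linarith)
    rw [show τ = τ' from Units.ext (by rw [hτ, hτ', add_comm]), h, act_t_inv]

/-- The unit `u = (t + t⁻¹)⁻¹`. -/
noncomputable def u : Dˣ := (T.exists_tau.choose)⁻¹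

theorem u_pos {s : ℚ} (hs : 0 < s) : T.act T.u s = s / 8 := by
  apply T.act_inv_eq
  rw [T.exists_tau.choose_spec.2.1 _ (by linarith)]
  ring

theorem u_neg {s : ℚ} (hs : s < 0) : T.act T.u s = 8 * s := by
  apply T.act_inv_eq
  rw [T.exists_tau.choose_spec.2.2 _ (by linarith)]
  ring

theorem u_zero : T.act T.u 0 = 0 := by
  rcases lt_trichotomy (T.act T.u 0) 0 with h | h | h
  · have h1 : T.act T.u (T.act T.u 0 / 16) < T.act T.u 0 := T.act_lt (by linarith)
    rw [T.u_neg (by linarith)] at h1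
    have h2 : T.act T.u 0 / 16 < 0 := by linarith
    -- choose a negative point with image above `act u 0`
    have h3 : T.act T.u (T.act T.u 0 / 16) < T.act T.u 0 := T.act_lt (by linarith)
    rw [T.u_neg h2] at h3
    linarith
  · exact h
  · have h2 : 0 < T.act T.u 0 := h
    have h3 : T.act T.u 0 < T.act T.u (T.act T.u 0) := T.act_lt h2
    rw [T.u_pos h2] at h3
    linarith

end TropD

end Helper7_Serial
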